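import Pool.Agent.Helper60.T3.Defs

/-!
# T3, packet LEAFC (MP_a41896_nt)
-/

set_option autoImplicit false

open MvPolynomial

namespace Pool.Agent.Helper77.T3.LEAFC

open Pool.Agent.Helper60.T3
open Pool.Agent.Helper5.UN (hv)

noncomputable section

/-! ### The polynomials `bch` -/

section bez

open Polynomial

theorem bezP {K : Type} [Field K] [CharZero K] (b2 b4 b6 : K)
    (hD : -b2 ^ 2 * (b2 * b6 - b4 ^ 2) - 32 * b4 ^ 3 - 108 * b6 ^ 2 + 36 * b2 * b4 * b6 ≠ 0) :
    Squarefree (4 * Polynomial.X ^ 3 + Polynomial.C b2 * Polynomial.X ^ 2 +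
      2 * Polynomial.C b4 * Polynomial.X + Polynomial.C b6 : Polynomial K) := by
  apply Polynomial.Separable.squarefree
  rw [Polynomial.separable_def']
  set D : K := -b2 ^ 2 * (b2 * b6 - b4 ^ 2) - 32 * b4 ^ 3 - 108 * b6 ^ 2 + 36 * b2 * b4 * b6
    with hDdef
  have hD2 : (2 * D) ≠ 0 := mul_ne_zero two_ne_zero hD
  refine ⟨Polynomial.C ((2 * D)⁻¹) * (-2 * Polynomial.C b2 ^ 3 +
      60 * Polynomial.C b2 * Polynomial.C b4 - 216 * Polynomial.C b6 -
      12 * Polynomial.X * Polynomial.C b2 ^ 2 + 288 * Polynomial.X * Polynomial.C b4),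
    Polynomial.C ((2 * D)⁻¹) * (Polynomial.C b2 ^ 2 * Polynomial.C b4 - 32 * Polynomial.C b4 ^ 2 +
      6 * Polynomial.C b2 * Polynomial.C b6 + Polynomial.X * Polynomial.C b2 ^ 3 -
      28 * Polynomial.X * Polynomial.C b2 * Polynomial.C b4 +
      72 * Polynomial.X * Polynomial.C b6 + 4 * Polynomial.X ^ 2 * Polynomial.C b2 ^ 2 -
      96 * Polynomial.X ^ 2 * Polynomial.C b4), ?_⟩
  have h4 : (4 : Polynomial K) = Polynomial.C 4 := (map_ofNat Polynomial.C 4).symm
  have h2 : (2 : Polynomial K) = Polynomial.C 2 := (map_ofNat Polynomial.C 2).symm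
  have hd : Polynomial.derivative (4 * Polynomial.X ^ 3 + Polynomial.C b2 * Polynomial.X ^ 2 +
      2 * Polynomial.C b4 * Polynomial.X + Polynomial.C b6 : Polynomial K) =
      12 * Polynomial.X ^ 2 + 2 * Polynomial.C b2 * Polynomial.X + 2 * Polynomial.C b4 := by
    have e2 : (Polynomial.C 2 : Polynomial K) = 2 := map_ofNat Polynomial.C 2
    have e3 : (Polynomial.C 3 : Polynomial K) = 3 := map_ofNat Polynomial.C 3
    simp [Polynomial.derivative_mul, e2, e3]
    ring
  rw [hd]
  have h1 : Polynomial.C ((2 * D)⁻¹) * Polynomial.C (2 * D) = 1 := by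
    rw [← Polynomial.C_mul, inv_mul_cancel₀ hD2, Polynomial.C_1]
  have h3 : Polynomial.C (2 * D) = 2 * (-Polynomial.C b2 ^ 2 * (Polynomial.C b2 * Polynomial.C b6 -
      Polynomial.C b4 ^ 2) - 32 * Polynomial.C b4 ^ 3 - 108 * Polynomial.C b6 ^ 2 +
      36 * Polynomial.C b2 * Polynomial.C b4 * Polynomial.C b6) := by
    rw [hDdef]
    simp only [map_mul, map_add, map_sub, map_neg, map_pow, map_ofNat]
  calc _ = Polynomial.C ((2 * D)⁻¹) * Polynomial.C (2 * D) := by
        rw [h3]; ring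
    _ = 1 := h1

theorem bezQ {K : Type} [Field K] [CharZero K] (b2 b4 b6 : K)
    (hD : -b2 ^ 2 * (b2 * b6 - b4 ^ 2) - 32 * b4 ^ 3 - 108 * b6 ^ 2 + 36 * b2 * b4 * b6 ≠ 0) :
    Squarefree (4 * Polynomial.X + Polynomial.C b2 * Polynomial.X ^ 2 +
      2 * Polynomial.C b4 * Polynomial.X ^ 3 + Polynomial.C b6 * Polynomial.X ^ 4 :
        Polynomial K) := by
  apply Polynomial.Separable.squarefree
  rw [Polynomial.separable_def']
  set D : K := -b2 ^ 2 * (b2 * b6 - b4 ^ 2) - 32 * b4 ^ 3 - 108 * b6 ^ 2 + 36 * b2 * b4 * b6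
    with hDdef
  have hD2 : (8 * D) ≠ 0 := mul_ne_zero (by norm_num) hD
  have hd : Polynomial.derivative (4 * Polynomial.X + Polynomial.C b2 * Polynomial.X ^ 2 +
      2 * Polynomial.C b4 * Polynomial.X ^ 3 + Polynomial.C b6 * Polynomial.X ^ 4 :
        Polynomial K) =
      4 + 2 * Polynomial.C b2 * Polynomial.X + 6 * Polynomial.C b4 * Polynomial.X ^ 2 +
        4 * Polynomial.C b6 * Polynomial.X ^ 3 := by
    have e2 : (Polynomial.C 2 : Polynomial K) = 2 := map_ofNat Polynomial.C 2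
    have e3 : (Polynomial.C 3 : Polynomial K) = 3 := map_ofNat Polynomial.C 3
    simp [Polynomial.derivative_mul, e2, e3]
    ring
  rw [hd]
  have h1 : Polynomial.C ((8 * D)⁻¹) * Polynomial.C (8 * D) = 1 := by
    rw [← Polynomial.C_mul, inv_mul_cancel₀ hD2, Polynomial.C_1]
  have h3 : Polynomial.C (8 * D) = 8 * (-Polynomial.C b2 ^ 2 * (Polynomial.C b2 * Polynomial.C b6 -
      Polynomial.C b4 ^ 2) - 32 * Polynomial.C b4 ^ 3 - 108 * Polynomial.C b6 ^ 2 +
      36 * Polynomial.C b2 * Polynomial.C b4 * Polynomial.C b6) := by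
    rw [hDdef]
    simp only [map_mul, map_add, map_sub, map_neg, map_pow, map_ofNat]
  generalize Polynomial.C b2 = c2 at *
  generalize Polynomial.C b4 = c4 at *
  generalize Polynomial.C b6 = c6 at *
  refine ⟨Polynomial.C ((8 * D)⁻¹) * (-2*c2^3*c4^2 + 60*c2*c4^3 + 2*c2^4*c6 - 68*c2^2*c4*c6 +
      8*c4^2*c6 + 192*c2*c6^2 - 6*Polynomial.X*c2^2*c4^3 + 144*Polynomial.X*c4^4 +
      6*Polynomial.X*c2^3*c4*c6 - 160*Polynomial.X*c2*c4^2*c6 - 8*Polynomial.X*c2^2*c6^2 +
      480*Polynomial.X*c4*c6^2 - 4*Polynomial.X^2*c2^2*c4^2*c6 + 96*Polynomial.X^2*c4^3*c6 +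
      4*Polynomial.X^2*c2^3*c6^2 - 112*Polynomial.X^2*c2*c4*c6^2 + 288*Polynomial.X^2*c6^3),
    Polynomial.C ((8 * D)⁻¹) * (2*c2^2*c4^2 - 64*c4^3 - 2*c2^3*c6 + 72*c2*c4*c6 - 216*c6^2 +
      Polynomial.X*c2^3*c4^2 - 28*Polynomial.X*c2*c4^3 - Polynomial.X*c2^4*c6 +
      32*Polynomial.X*c2^2*c4*c6 - 8*Polynomial.X*c4^2*c6 - 84*Polynomial.X*c2*c6^2 +
      2*Polynomial.X^2*c2^2*c4^3 - 48*Polynomial.X^2*c4^4 - 2*Polynomial.X^2*c2^3*c4*c6 +
      54*Polynomial.X^2*c2*c4^2*c6 + 2*Polynomial.X^2*c2^2*c6^2 - 156*Polynomial.X^2*c4*c6^2 +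
      Polynomial.X^3*c2^2*c4^2*c6 - 24*Polynomial.X^3*c4^3*c6 - Polynomial.X^3*c2^3*c6^2 +
      28*Polynomial.X^3*c2*c4*c6^2 - 72*Polynomial.X^3*c6^3), ?_⟩
  calc _ = Polynomial.C ((8 * D)⁻¹) * Polynomial.C (8 * D) := by
        rw [h3]; ring
    _ = 1 := h1

end bez

theorem disc_ne {K : Type} [Field K] [CharZero K] (W : WeierstrassCurve.Affine K)
    (hW : W.IsElliptic) :
    -W.b₂ ^ 2 * (W.b₂ * W.b₆ - W.b₄ ^ 2) - 32 * W.b₄ ^ 3 - 108 * W.b₆ ^ 2 +
      36 * W.b₂ * W.b₄ * W.b₆ ≠ 0 := by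
  have h := W.b_relation
  have h0 : W.Δ ≠ 0 := hW.isUnit.ne_zero
  have h1 : -W.b₂ ^ 2 * (W.b₂ * W.b₆ - W.b₄ ^ 2) - 32 * W.b₄ ^ 3 - 108 * W.b₆ ^ 2 +
      36 * W.b₂ * W.b₄ * W.b₆ = 4 * W.Δ := by
    rw [WeierstrassCurve.Δ, ← h]
    ring
  rw [h1]
  exact mul_ne_zero (by norm_num) h0

theorem bch_sq {K : Type} [Field K] [CharZero K] {σ : Type} (W : σ → WeierstrassCurve.Affine K)
    (hW : ∀ i, (W i).IsElliptic) (a : σ → Bool) (i : σ) : Squarefree (bch W a i) := by
  unfold bch
  split_ifs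
  · exact bezP _ _ _ (disc_ne (W i) (hW i))
  · exact bezQ _ _ _ (disc_ne (W i) (hW i))

theorem bch_nd {K : Type} [Field K] [CharZero K] {σ : Type} (W : σ → WeierstrassCurve.Affine K)
    (a : σ → Bool) (i : σ) : (bch W a i).natDegree ≠ 0 := by
  intro h0
  have h4 : (4 : Polynomial K) = Polynomial.C 4 := (map_ofNat Polynomial.C 4).symm
  have h2 : (2 : Polynomial K) = Polynomial.C 2 := (map_ofNat Polynomial.C 2).symm
  unfold bch at h0
  split_ifs at h0
  · have h := Polynomial.coeff_eq_zero_of_natDegree_lt (n := 3) (by rw [h0]; norm_num)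
    revert h
    rw [h4, h2]
    simp [Polynomial.coeff_X, Polynomial.coeff_C, mul_assoc]
  · have h := Polynomial.coeff_eq_zero_of_natDegree_lt (n := 1) (by rw [h0]; norm_num)
    revert h
    rw [h4, h2]
    simp [Polynomial.coeff_X, Polynomial.coeff_C, mul_assoc, Polynomial.coeff_X_pow]

theorem bch_true {K L : Type} [Field K] [Field L] [Algebra K L] {σ : Type}
    (W : σ → WeierstrassCurve.Affine K) (a : σ → Bool) (i : σ) (hi : a i = true) (x : L) :
    Polynomial.aeval x (bch W a i) = Polynomial.aeval x (bch W (fun _ => true) i) := by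
  unfold bch
  simp [hi]

theorem bch_false {K L : Type} [Field K] [Field L] [Algebra K L] {σ : Type}
    (W : σ → WeierstrassCurve.Affine K) (a : σ → Bool) (i : σ) (hi : a i = false) (x : L)
    (hx : x ≠ 0) :
    Polynomial.aeval x (bch W a i) =
      x ^ 4 * Polynomial.aeval x⁻¹ (bch W (fun _ => true) i) := by
  have e2 : ∀ y : L, Polynomial.aeval y (2 : Polynomial K) = 2 := fun y => map_ofNat _ 2
  have e4 : ∀ y : L, Polynomial.aeval y (4 : Polynomial K) = 4 := fun y => map_ofNat _ 4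
  unfold bch
  simp [hi, e2, e4]
  field_simp

/-! ### The reversal -/

section rev

variable {K : Type} [Field K] {σ : Type} [Fintype σ]

/-- exponents of the reversal -/
def r (a : σ → Bool) (E : σ → ℕ) (m : σ →₀ ℕ) : σ →₀ ℕ :=
  Finsupp.equivFunOnFinite.symm fun i => if a i = true then m i else E i - m i

theorem r_apply (a : σ → Bool) (E : σ → ℕ) (m : σ →₀ ℕ) (i : σ) :
    r a E m i = if a i = true then m i else E i - m i := rfl

theorem r_inj (a : σ → Bool) (E : σ → ℕ) {m m' : σ →₀ ℕ} (h : ∀ i, m i ≤ E i)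
    (h' : ∀ i, m' i ≤ E i) (e : r a E m = r a E m') : m = m' := by
  ext i
  have h3 := DFunLike.congr_fun e i
  rw [r_apply, r_apply] at h3
  have h1 := h i
  have h2 := h' i
  split_ifs at h3 <;> omega

theorem rv_eq (a : σ → Bool) (h : MvPolynomial σ K) :
    rv a h = ∑ m ∈ h.support, monomial (r a (fun i => h.degreeOf i) m) (coeff m h) := by
  unfold rv hv
  refine Finset.sum_congr rfl fun m _ => ?_
  rw [monomial_eq, Finsupp.prod_fintype _ _ (by simp)]
  congr 1
  refine Finset.prod_congr rfl fun i _ => ?_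
  rw [r_apply]
  by_cases hi : a i = true <;> simp [hi]

theorem coeff_rv (a : σ → Bool) (h : MvPolynomial σ K) {m : σ →₀ ℕ} (hm : m ∈ h.support) :
    coeff (r a (fun i => h.degreeOf i) m) (rv a h) = coeff m h := by
  classical
  rw [rv_eq, coeff_sum, Finset.sum_eq_single m]
  · rw [coeff_monomial, if_pos rfl]
  · intro m' hm' hne
    rw [coeff_monomial, if_neg]
    intro e
    exact hne (r_inj a _ (fun i => monomial_le_degreeOf i hm')
      (fun i => monomial_le_degreeOf i hm) e)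
  · intro h
    exact absurd hm h

theorem supp_rv {a : σ → Bool} {h : MvPolynomial σ K} {m' : σ →₀ ℕ}
    (hm' : m' ∈ (rv a h).support) :
    ∃ m ∈ h.support, m' = r a (fun i => h.degreeOf i) m := by
  classical
  by_contra hcon
  push Not at hcon
  rw [mem_support_iff, rv_eq, coeff_sum] at hm'
  apply hm'
  refine Finset.sum_eq_zero fun m hm => ?_
  rw [coeff_monomial, if_neg fun e => hcon m hm e.symm]

theorem mem_rv (a : σ → Bool) {g : MvPolynomial σ K} {m : σ →₀ ℕ} (hm : m ∈ g.support) :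
    r a (fun i => g.degreeOf i) m ∈ (rv a g).support := by
  rw [mem_support_iff, coeff_rv a g hm]
  exact mem_support_iff.1 hm

theorem rv_ne (a : σ → Bool) {g : MvPolynomial σ K} (hg : g ≠ 0) : rv a g ≠ 0 := by
  obtain ⟨m, hm⟩ := support_nonempty.2 hg
  intro h
  have h1 := mem_rv a hm
  rw [h] at h1
  simp at h1

theorem exists_max {g : MvPolynomial σ K} (hg : g ≠ 0) (l : σ) :
    ∃ m ∈ g.support, m l = degreeOf l g := by
  rw [degreeOf_eq_sup]
  obtain ⟨m, hm, h⟩ := Finset.exists_mem_eq_sup g.support (support_nonempty.2 hg) (fun m => m l)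
  exact ⟨m, hm, h.symm⟩

theorem X_ndvd {g : MvPolynomial σ K} {l : σ} {m : σ →₀ ℕ} (hm : m ∈ g.support)
    (h0 : m l = 0) : ¬ X l ∣ g := by
  classical
  rintro ⟨q, rfl⟩
  rw [mem_support_iff] at hm
  apply hm
  rw [coeff_X_mul', if_neg]
  simpa using h0

theorem X_dvd_of {g : MvPolynomial σ K} {l : σ} (h : ∀ m ∈ g.support, m l ≠ 0) : X l ∣ g := by
  rw [X_dvd_iff_modMonomial_eq_zero]
  ext m
  by_cases hle : Finsupp.single l 1 ≤ m
  · rw [coeff_modMonomial_of_le _ hle, coeff_zero]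
  · rw [coeff_modMonomial_of_not_le _ hle, coeff_zero]
    by_contra hc
    exact hle (Finsupp.single_le_iff.2 (Nat.one_le_iff_ne_zero.2 (h m (mem_support_iff.2 hc))))

theorem X_ndvd_rv (a : σ → Bool) {g : MvPolynomial σ K} (hg : g ≠ 0) {l : σ}
    (hl : a l = false) : ¬ X l ∣ rv a g := by
  obtain ⟨m, hm, hml⟩ := exists_max hg l
  refine X_ndvd (mem_rv a hm) ?_
  rw [r_apply, if_neg (by simp [hl]), hml]
  exact Nat.sub_self _

theorem deg_rv_le (a : σ → Bool) (g : MvPolynomial σ K) (l : σ) :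
    degreeOf l (rv a g) ≤ degreeOf l g := by
  rw [degreeOf_le_iff]
  intro m' hm'
  obtain ⟨m, hm, rfl⟩ := supp_rv hm'
  rw [r_apply]
  split_ifs
  · exact monomial_le_degreeOf l hm
  · exact Nat.sub_le _ _

theorem deg_rv (a : σ → Bool) (g : MvPolynomial σ K) (l : σ) (h : a l = false → ¬ X l ∣ g) :
    degreeOf l (rv a g) = degreeOf l g := by
  by_cases hg : g = 0
  · subst hg
    simp [rv_eq]
  refine le_antisymm (deg_rv_le a g l) ?_
  by_cases hl : a l = true
  · obtain ⟨m, hm, hml⟩ := exists_max hg l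
    calc degreeOf l g = r a (fun i => g.degreeOf i) m l := by rw [r_apply, if_pos hl, hml]
      _ ≤ _ := monomial_le_degreeOf l (mem_rv a hm)
  · have hl' : a l = false := by simpa using hl
    have h1 : ∃ m ∈ g.support, m l = 0 := by
      by_contra hc
      push Not at hc
      exact h hl' (X_dvd_of hc)
    obtain ⟨m, hm, hml⟩ := h1
    calc degreeOf l g = r a (fun i => g.degreeOf i) m l := by
          rw [r_apply, if_neg hl, hml, Nat.sub_zero]
      _ ≤ _ := monomial_le_degreeOf l (mem_rv a hm)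

/-! ### Evaluation -/

variable {L : Type} [Field L] [Algebra K L]

/-- the monomial factor -/
def MM (a : σ → Bool) (E : σ → ℕ) (x : σ → L) : L :=
  ∏ l, if a l = true then 1 else x l ^ E l

/-- the point in the other chart -/
def yy (a : σ → Bool) (x : σ → L) : σ → L := fun l => if a l = true then x l else (x l)⁻¹

theorem MM_ne (a : σ → Bool) (E : σ → ℕ) (x : σ → L) (hx : ∀ l, a l = false → x l ≠ 0) :
    MM a E x ≠ 0 := by
  unfold MM
  rw [Finset.prod_ne_zero_iff]
  intro l _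
  by_cases hl : a l = true
  · simp [hl]
  · rw [if_neg hl]
    exact pow_ne_zero _ (hx l (by simpa using hl))

theorem term (a : σ → Bool) (E : σ → ℕ) (x : σ → L) (hx : ∀ l, a l = false → x l ≠ 0)
    (m : σ →₀ ℕ) (hm : ∀ i, m i ≤ E i) (c : K) :
    aeval x (monomial (r a E m) c) = MM a E x * aeval (yy a x) (monomial m c) := by
  rw [aeval_monomial, aeval_monomial, Finsupp.prod_fintype _ _ (by simp),
    Finsupp.prod_fintype _ _ (by simp)]
  rw [mul_left_comm]
  congr 1
  unfold MM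
  rw [← Finset.prod_mul_distrib]
  refine Finset.prod_congr rfl fun l _ => ?_
  rw [r_apply, yy]
  by_cases hl : a l = true
  · simp [hl]
  · rw [if_neg hl, if_neg hl, if_neg hl, inv_pow]
    exact pow_sub₀ _ (hx l (by simpa using hl)) (hm l)

theorem as1 (y : σ → L) (g : MvPolynomial σ K) :
    aeval y g = ∑ m ∈ g.support, aeval y (monomial m (coeff m g)) := by
  conv_lhs => rw [g.as_sum, map_sum]

theorem as2 (y : σ → L) (g : MvPolynomial σ K) (k : σ) :
    aeval y (pderiv k g) = ∑ m ∈ g.support, aeval y (pderiv k (monomial m (coeff m g))) := by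
  conv_lhs => rw [g.as_sum, map_sum, map_sum]

theorem ev (a : σ → Bool) (g : MvPolynomial σ K) (x : σ → L)
    (hx : ∀ l, a l = false → x l ≠ 0) :
    aeval x (rv a g) = MM a (fun i => g.degreeOf i) x * aeval (yy a x) g := by
  rw [as1 (yy a x) g, rv_eq, map_sum, Finset.mul_sum]
  exact Finset.sum_congr rfl fun m hm =>
    term a _ x hx m (fun i => monomial_le_degreeOf i hm) _

theorem ev_t (a : σ → Bool) (g : MvPolynomial σ K) (x : σ → L)
    (hx : ∀ l, a l = false → x l ≠ 0) (k : σ) (hk : a k = true) :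
    aeval x (pderiv k (rv a g)) =
      MM a (fun i => g.degreeOf i) x * aeval (yy a x) (pderiv k g) := by
  rw [as2 (yy a x) g, rv_eq, map_sum, map_sum, Finset.mul_sum]
  refine Finset.sum_congr rfl fun m hm => ?_
  rw [pderiv_monomial, pderiv_monomial]
  have e1 : r a (fun i => g.degreeOf i) m k = m k := by rw [r_apply, if_pos hk]
  have e2 : r a (fun i => g.degreeOf i) m - Finsupp.single k 1 =
      r a (fun i => g.degreeOf i) (m - Finsupp.single k 1) := by
    classical
    ext l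
    rw [Finsupp.tsub_apply, r_apply, r_apply, Finsupp.tsub_apply]
    by_cases hl : l = k
    · subst hl
      simp [hk]
    · rw [Finsupp.single_eq_of_ne hl]
      simp
  rw [e1, e2]
  refine term a _ x hx _ (fun i => ?_) _
  rw [Finsupp.tsub_apply]
  exact le_trans (Nat.sub_le _ _) (monomial_le_degreeOf i hm)

theorem ev_f (a : σ → Bool) (g : MvPolynomial σ K) (x : σ → L)
    (hx : ∀ l, a l = false → x l ≠ 0) (k : σ) (hk : a k = false)
    (h0 : aeval (yy a x) g = 0) :
    aeval x (pderiv k (rv a g)) =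
      -(MM a (fun i => g.degreeOf i) x * (x k)⁻¹ ^ 2 * aeval (yy a x) (pderiv k g)) := by
  have hk' : ¬ a k = true := by simp [hk]
  have h1 : x k * aeval x (pderiv k (rv a g)) =
      ∑ m ∈ g.support, ((g.degreeOf k : L) - (m k : L)) *
        (MM a (fun i => g.degreeOf i) x * aeval (yy a x) (monomial m (coeff m g))) := by
    have h2 : x k * aeval x (pderiv k (rv a g)) = aeval x (X k * pderiv k (rv a g)) := by
      rw [map_mul, aeval_X]
    rw [h2, rv_eq, map_sum, Finset.mul_sum, map_sum]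
    refine Finset.sum_congr rfl fun m hm => ?_
    rw [X_mul_pderiv_monomial, map_nsmul, r_apply, if_neg hk', nsmul_eq_mul,
      Nat.cast_sub (monomial_le_degreeOf k hm),
      term a _ x hx m (fun i => monomial_le_degreeOf i hm)]
  have h3 : ∑ m ∈ g.support, ((m k : L)) * aeval (yy a x) (monomial m (coeff m g)) =
      (x k)⁻¹ * aeval (yy a x) (pderiv k g) := by
    rw [as2, Finset.mul_sum]
    refine Finset.sum_congr rfl fun m hm => ?_
    have h2 : (x k)⁻¹ * aeval (yy a x) (pderiv k (monomial m (coeff m g))) =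
        aeval (yy a x) (X k * pderiv k (monomial m (coeff m g))) := by
      rw [map_mul, aeval_X]
      unfold yy
      rw [if_neg hk']
    rw [h2, X_mul_pderiv_monomial, map_nsmul, nsmul_eq_mul]
  have h4 : ∑ m ∈ g.support, aeval (yy a x) (monomial m (coeff m g)) = 0 := by
    rw [← as1, h0]
  have h5 : x k * aeval x (pderiv k (rv a g)) =
      -(MM a (fun i => g.degreeOf i) x * ((x k)⁻¹ * aeval (yy a x) (pderiv k g))) := by
    rw [h1, ← h3]
    have h6 : ∀ m : σ →₀ ℕ, ((g.degreeOf k : L) - (m k : L)) *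
        (MM a (fun i => g.degreeOf i) x * aeval (yy a x) (monomial m (coeff m g))) =
        (g.degreeOf k : L) * MM a (fun i => g.degreeOf i) x *
          aeval (yy a x) (monomial m (coeff m g)) -
        MM a (fun i => g.degreeOf i) x *
          ((m k : L) * aeval (yy a x) (monomial m (coeff m g))) := fun m => by ring
    rw [Finset.sum_congr rfl fun m _ => h6 m, Finset.sum_sub_distrib, ← Finset.mul_sum,
      ← Finset.mul_sum, h4]
    ring
  have hxk := hx k hk
  have h7 : aeval x (pderiv k (rv a g)) = (x k)⁻¹ * (x k * aeval x (pderiv k (rv a g))) := by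
    rw [← mul_assoc, inv_mul_cancel₀ hxk, one_mul]
  rw [h7, h5]
  ring

end rev

section gen

variable {K : Type} [Field K] {σ : Type} [Fintype σ]

/-- the generic point -/
abbrev gp : σ → FractionRing (MvPolynomial σ K) :=
  algebraMap (MvPolynomial σ K) (FractionRing (MvPolynomial σ K)) ∘ X

theorem gp_aeval (p : MvPolynomial σ K) :
    aeval (gp (K := K) (σ := σ)) p =
      algebraMap (MvPolynomial σ K) (FractionRing (MvPolynomial σ K)) p := by
  rw [gp, aeval_algebraMap_apply, aeval_X_left_apply]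

theorem gp_ne (l : σ) : gp (K := K) l ≠ 0 := by
  rw [gp, Function.comp_apply, Ne, FaithfulSMul.algebraMap_eq_zero_iff]
  exact X_ne_zero l

theorem yy_yy {L : Type} [Field L] (a : σ → Bool) (x : σ → L) : yy a (yy a x) = x := by
  funext l
  unfold yy
  by_cases hl : a l = true <;> simp [hl]

theorem MM_yy {L : Type} [Field L] (a : σ → Bool) (E : σ → ℕ) (x : σ → L)
    (hx : ∀ l, a l = false → x l ≠ 0) : MM a E x * MM a E (yy a x) = 1 := by
  unfold MM
  rw [← Finset.prod_mul_distrib]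
  refine Finset.prod_eq_one fun l _ => ?_
  by_cases hl : a l = true
  · simp [hl]
  · rw [if_neg hl, if_neg hl, yy, if_neg hl, inv_pow]
    exact mul_inv_cancel₀ (pow_ne_zero _ (hx l (by simpa using hl)))

theorem MM_add {L : Type} [Field L] (a : σ → Bool) (E E' : σ → ℕ) (x : σ → L) :
    MM a (fun l => E l + E' l) x = MM a E x * MM a E' x := by
  unfold MM
  rw [← Finset.prod_mul_distrib]
  refine Finset.prod_congr rfl fun l _ => ?_
  by_cases hl : a l = true
  · simp [hl]
  · rw [if_neg hl, if_neg hl, if_neg hl, pow_add]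

theorem rv_mul (a : σ → Bool) {u v : MvPolynomial σ K} (hu : u ≠ 0) (hv : v ≠ 0) :
    rv a (u * v) = rv a u * rv a v := by
  apply IsFractionRing.injective (MvPolynomial σ K) (FractionRing (MvPolynomial σ K))
  rw [map_mul, ← gp_aeval, ← gp_aeval, ← gp_aeval, ev a _ _ fun l _ => gp_ne l,
    ev a _ _ fun l _ => gp_ne l, ev a _ _ fun l _ => gp_ne l, map_mul]
  have h1 : (fun i => (u * v).degreeOf i) = fun i => u.degreeOf i + v.degreeOf i := by
    funext i
    exact degreeOf_mul_eq hu hv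
  rw [h1, MM_add]
  ring

theorem rv_rv (a : σ → Bool) {g : MvPolynomial σ K} (h : ∀ l, a l = false → ¬ X l ∣ g) :
    rv a (rv a g) = g := by
  apply IsFractionRing.injective (MvPolynomial σ K) (FractionRing (MvPolynomial σ K))
  have h1 : (fun i => (rv a g).degreeOf i) = fun i => g.degreeOf i := by
    funext i
    exact deg_rv a g i (h i)
  have h2 : ∀ l, a l = false → yy a (gp (K := K) (σ := σ)) l ≠ 0 := by
    intro l hl
    rw [yy, if_neg (by simp [hl])]
    exact inv_ne_zero (gp_ne l)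
  rw [← gp_aeval, ← gp_aeval, ev a _ _ fun l _ => gp_ne l, h1, ev a _ _ h2, yy_yy, ← mul_assoc,
    MM_yy a _ _ fun l _ => gp_ne l, one_mul]

theorem unit_of_deg {v : MvPolynomial σ K} (hv : v ≠ 0) (h : ∀ l, degreeOf l v = 0) :
    IsUnit v := by
  classical
  have h1 : v = C (coeff 0 v) := by
    ext m
    by_cases hm : m = 0
    · rw [hm, coeff_zero_C]
    · rw [coeff_C, if_neg (Ne.symm hm)]
      by_contra hc
      apply hm
      ext l
      have h2 := monomial_le_degreeOf l (mem_support_iff.2 hc)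
      rw [h l] at h2
      simpa using h2
  rw [h1]
  refine IsUnit.map C ?_
  rw [isUnit_iff_ne_zero]
  intro h2
  rw [h2, C_0] at h1
  exact hv h1

theorem deg_of_unit {v : MvPolynomial σ K} (hv : IsUnit v) (l : σ) : degreeOf l v = 0 := by
  obtain ⟨c, _, rfl⟩ := isUnit_iff_eq_C_of_isReduced.1 hv
  exact degreeOf_C _ _

theorem ev_unit {L : Type} [Field L] [Algebra K L] {v : MvPolynomial σ K} (hv : IsUnit v)
    (x : σ → L) : aeval x v ≠ 0 :=
  (IsUnit.map (aeval x) hv).ne_zero

/-- an irreducible polynomial with a zero in the chart `a` is not associated to `X_l`, `a l = false` -/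
theorem ndvd {L : Type} [Field L] [Algebra K L] (a : σ → Bool) {h : MvPolynomial σ K}
    (hh : Irreducible h) (ξ : σ → L) (h0 : aeval ξ (rv a h) = 0) (l : σ) (hl : a l = false) :
    ¬ X l ∣ h := by
  classical
  rintro ⟨q, rfl⟩
  have hq : IsUnit q := by
    rcases hh.isUnit_or_isUnit rfl with h1 | h1
    · exfalso
      have h2 := deg_of_unit h1 l
      rw [degreeOf_X_self] at h2
      exact one_ne_zero h2
    · exact h1
  refine ev_unit (unit_of_deg (rv_ne a hh.ne_zero) fun k => ?_) ξ h0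
  by_cases hk : k = l
  · subst hk
    rw [← Nat.le_zero, degreeOf_le_iff]
    intro m' hm'
    obtain ⟨m, hm, rfl⟩ := supp_rv hm'
    rw [r_apply, if_neg (by simp [hl])]
    have h3 : m k ≠ 0 := fun h4 => X_ndvd hm h4 ⟨q, rfl⟩
    have h5 : degreeOf k (X k * q) ≤ 1 := by
      refine le_trans (degreeOf_mul_le _ _ _) ?_
      rw [degreeOf_X_self, deg_of_unit hq]
    omega
  · rw [← Nat.le_zero]
    refine le_trans (deg_rv_le a _ k) (le_trans (degreeOf_mul_le _ _ _) ?_)
    rw [degreeOf_X, if_neg hk, deg_of_unit hq]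

theorem irr {L : Type} [Field L] [Algebra K L] (a : σ → Bool) {h : MvPolynomial σ K}
    (hh : Irreducible h) (ξ : σ → L) (h0 : aeval ξ (rv a h) = 0) : Irreducible (rv a h) := by
  have hnd := ndvd a hh ξ h0
  refine ⟨fun hu => ev_unit hu ξ h0, fun u v huv => ?_⟩
  have hne : u * v ≠ 0 := by
    rw [← huv]
    exact rv_ne a hh.ne_zero
  have hu : u ≠ 0 := left_ne_zero_of_mul hne
  have hv : v ≠ 0 := right_ne_zero_of_mul hne
  have h1 : h = rv a u * rv a v := by
    rw [← rv_mul a hu hv, ← huv, rv_rv a hnd]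
  have key : ∀ w : MvPolynomial σ K, w ≠ 0 → w ∣ rv a h → IsUnit (rv a w) → IsUnit w := by
    intro w hw hwd hwu
    refine unit_of_deg hw fun l => ?_
    rw [← deg_rv a w l fun hl hX => X_ndvd_rv a hh.ne_zero hl (hX.trans hwd)]
    exact deg_of_unit hwu l
  rcases hh.isUnit_or_isUnit h1 with h2 | h2
  · exact Or.inl (key u hu ⟨v, huv⟩ h2)
  · exact Or.inr (key v hv ⟨u, by rw [huv, mul_comm]⟩ h2)

/-- the generic point of `g = 0` -/
theorem pt {g : MvPolynomial σ K} (hirr : Irreducible g) :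
    ∃ (L : Type) (_ : Field L) (_ : Algebra K L) (x : σ → L),
      ∀ p : MvPolynomial σ K, aeval x p = 0 ↔ g ∣ p := by
  have hI : (Ideal.span {g}).IsPrime :=
    (Ideal.span_singleton_prime hirr.ne_zero).2 hirr.prime
  let A := MvPolynomial σ K ⧸ Ideal.span {g}
  let L := FractionRing A
  let x : σ → L := fun l => algebraMap A L (Ideal.Quotient.mk _ (X l))
  have hx : ∀ p : MvPolynomial σ K, aeval x p = algebraMap A L (Ideal.Quotient.mk _ p) := by
    intro p
    let φ : MvPolynomial σ K →ₐ[K] L :=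
      (IsScalarTower.toAlgHom K A L).comp (Ideal.Quotient.mkₐ K (Ideal.span {g}))
    have h1 : aeval x = φ := by
      apply MvPolynomial.algHom_ext
      intro l
      rw [aeval_X]
      rfl
    rw [h1]
    rfl
  refine ⟨L, inferInstance, inferInstance, x, fun p => ?_⟩
  rw [hx, FaithfulSMul.algebraMap_eq_zero_iff, Ideal.Quotient.eq_zero_iff_mem,
    Ideal.mem_span_singleton]

theorem flat (W : σ → WeierstrassCurve.Affine K) (n : σ → K) (a : σ → Bool)
    {h : MvPolynomial σ K} (hirr : Irreducible (rv a h)) (hne : h ≠ 0) (hf : Flat W n h) :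
    FlatB (bch W a) n (rv a h) := by
  classical
  obtain ⟨L, _, _, x, hx⟩ := pt (K := K) (σ := σ) hirr
  have hdvd : ∀ p : MvPolynomial σ K, aeval x p = 0 → rv a h ∣ p := fun p hp => (hx p).1 hp
  have hg0 : aeval x (rv a h) = 0 := (hx _).2 dvd_rfl
  have hx0 : ∀ l, a l = false → x l ≠ 0 := by
    intro l hl h0
    have h1 : rv a h ∣ X l := hdvd (X l) (by rw [aeval_X]; exact h0)
    obtain ⟨q, hq⟩ := h1
    have hXirr : Irreducible (X l : MvPolynomial σ K) := (X_prime (R := K) (i := l)).irreducible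
    rcases hXirr.isUnit_or_isUnit hq with h2 | h2
    · exact hirr.not_isUnit h2
    · obtain ⟨u, rfl⟩ := h2
      apply X_ndvd_rv a hne hl
      refine ⟨↑(u⁻¹), ?_⟩
      rw [hq, mul_assoc, Units.mul_inv, mul_one]
  set M : L := MM a (fun i => h.degreeOf i) x with hM
  have hMne : M ≠ 0 := MM_ne a _ x hx0
  have hy0 : aeval (yy a x) h = 0 := by
    have h1 := ev a h x hx0
    rw [hg0] at h1
    rcases mul_eq_zero.1 h1.symm with h2 | h2
    · exact absurd h2 hMne
    · exact h2
  have key : ∀ k, Polynomial.aeval (x k) (bch W a k) * (aeval x (pderiv k (rv a h))) ^ 2 =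
      M ^ 2 * (Polynomial.aeval (yy a x k) (bch W (fun _ => true) k) *
        (aeval (yy a x) (pderiv k h)) ^ 2) := by
    intro k
    by_cases hk : a k = true
    · have e : yy a x k = x k := by rw [yy, if_pos hk]
      rw [ev_t a h x hx0 k hk, bch_true W a k hk, e]
      ring
    · have hk' : a k = false := by simpa using hk
      have hxk := hx0 k hk'
      rw [ev_f a h x hx0 k hk' hy0, bch_false W a k hk' _ hxk]
      have e : yy a x k = (x k)⁻¹ := by rw [yy, if_neg hk]
      rw [e]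
      have e2 : x k ^ 4 * ((x k)⁻¹ ^ 2) ^ 2 = 1 := by
        rw [← pow_mul, inv_pow]
        exact mul_inv_cancel₀ (pow_ne_zero _ hxk)
      linear_combination (M ^ 2 * (Polynomial.aeval (x k)⁻¹ (bch W (fun _ => true) k) *
        (aeval (yy a x) (pderiv k h)) ^ 2)) * e2
  intro i k
  apply hdvd
  obtain ⟨q, hq⟩ := hf i k
  have h1 := congrArg (aeval (yy a x)) hq
  rw [map_mul, hy0, zero_mul] at h1
  simp only [map_sub, map_mul, map_pow, aeval_C, ← Polynomial.aeval_algHom_apply, aeval_X] at h1 ⊢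
  have k1 := key i
  have k2 := key k
  linear_combination algebraMap K L (n k) * k1 - algebraMap K L (n i) * k2 + M ^ 2 * h1

end gen

theorem t (hLEAF : S_LEAF) : S_LEAFC := by
  intro K _ _ σ _ _ W hW hσ n i' hn Ω _ _ _ a ξ
  classical
  obtain ⟨F, hF0, hF⟩ := hLEAF K σ (bch W a) (bch_sq W hW a) (bch_nd W a) hσ n i' hn Ω ξ
  refine ⟨F.image (rv a), ?_, ?_⟩
  · intro g hg
    obtain ⟨f, hf, rfl⟩ := Finset.mem_image.1 hg
    exact rv_ne a (hF0 f hf)
  · intro h hh hflat h0
    have hirr := irr a hh ξ h0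
    obtain ⟨g, hg, q, hq⟩ := hF (rv a h) hirr (flat W n a hirr hh.ne_zero hflat) h0
    refine ⟨rv a g, Finset.mem_image_of_mem _ hg, rv a q, ?_⟩
    have hgne := hF0 g hg
    have hqne : q ≠ 0 := by
      rintro rfl
      apply hgne
      rw [hq, mul_zero]
    rw [hq, rv_mul a hirr.ne_zero hqne, rv_rv a (ndvd a hh ξ h0)]

end

end Pool.Agent.Helper77.T3.LEAFC
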